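import Pool.Agent.helper60.DA.SpecJ

/-!
# Row `dj:TJ` (MP_fb2c2a_nt): binomial coefficients modulo `p^2` and `p = X^2 + 3 Y^2`
-/

set_option autoImplicit false

namespace Pool.Agent.helper60.DA

open Polynomial Finset Pool.Agent.helper60.DK

private theorem TJ_pow {p : ℕ} [Fact p.Prime] (x : ZMod p) (n : ℕ) :
    (1 + lp p x) ^ n = 1 + lp p ((n : ZMod p) * x) := by
  induction n with
  | zero => simp [lp_zero]
  | succ n ih =>
    have e : ((n + 1 : ℕ) : ZMod p) * x = (n : ZMod p) * x + x := by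
      push_cast
      ring
    rw [pow_succ (1 + lp p x) n, ih, e, lp_add]
    have h := lp_mul_lp (p := p) ((n : ZMod p) * x) x
    linear_combination h

private theorem TJ_two {p : ℕ} [Fact p.Prime] (hp : 3 < p) :
    (2 : ZMod (p ^ 2)) ^ (p - 1) = 1 + lp p (Q2 p) := by
  have hnd : ¬ (p : ℤ) ∣ 2 := by
    intro h
    have := Int.le_of_dvd (by norm_num) h
    omega
  have h := fq_spec hnd
  have h' := congrArg (Int.cast : ℤ → ZMod (p ^ 2)) h
  push_cast at h'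
  unfold Q2
  rw [lp_intCast]
  linear_combination -h'

private theorem TJ_alg {R : Type} [CommRing R] (s w qm α C1 C2 L u v S1 : R) (hs : s * s = 1)
    (hq : qm ^ 2 = 1) (hL : L * L = 0) (h1 : s * w * S1 = -(s * C1 * (1 + L)))
    (hS : S1 = qm * α) (h2 : w ^ 2 * α = -C2) (h3 : w ^ 2 = u * (1 + L)) (huv : u ^ 2 = v) :
    2 * C1 ^ 2 * u + C2 ^ 2 = 3 * v * α ^ 2 := by
  have e1 : w * (qm * α) = -(C1 * (1 + L)) := by
    rw [← hS]
    have h4 : s * (s * w * S1) = s * -(s * C1 * (1 + L)) := by rw [h1]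
    have h5 : (s * s) * (w * S1) = (s * s) * -(C1 * (1 + L)) := by linear_combination h4
    rwa [hs, one_mul, one_mul] at h5
  have e2 : w ^ 2 * qm ^ 2 * α ^ 2 = C1 ^ 2 * (1 + L) ^ 2 := by
    have h11 : (w * (qm * α)) ^ 2 = (-(C1 * (1 + L))) ^ 2 := by rw [e1]
    linear_combination h11
  rw [hq, h3, mul_one] at e2
  have e3 : C1 ^ 2 = u * (1 - L) * α ^ 2 := by
    have h6 : u * (1 + L) * α ^ 2 * (1 - L) ^ 2 = C1 ^ 2 * (1 + L) ^ 2 * (1 - L) ^ 2 := by rw [e2]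
    have h7 : (1 + L) * (1 - L) = 1 := by linear_combination -hL
    have h8 : u * (1 + L) * α ^ 2 * (1 - L) ^ 2 = u * (1 - L) * α ^ 2 * ((1 + L) * (1 - L)) := by ring
    have h9 : C1 ^ 2 * (1 + L) ^ 2 * (1 - L) ^ 2 = C1 ^ 2 * ((1 + L) * (1 - L)) ^ 2 := by ring
    rw [h8, h9, h7] at h6
    linear_combination -h6
  have e4 : C2 ^ 2 = v * (1 + 2 * L) * α ^ 2 := by
    have h10 : C2 = -(w ^ 2 * α) := by linear_combination h2
    rw [h10, h3, ← huv]
    linear_combination u ^ 2 * α ^ 2 * hL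
  rw [e3, e4, ← huv]
  ring

theorem TJ (h1 : OM_stmt) (h2 : JB_stmt) (h3 : DUP_stmt) (h5 : JF_stmt)
    (h6 : CUB_stmt) (h7 : HAR_stmt) (h8 : HAS_stmt) : TJ_stmt := by
  intro p _ hp3 hp6
  obtain ⟨X, Y, hXY, hα⟩ := h6 p hp3 hp6
  refine ⟨X, Y, hXY, ?_⟩
  rw [← hα]
  have hf : p = 6 * (p / 6) + 1 := by omega
  have hf1 : 1 ≤ p / 6 := by omega
  set f := p / 6 with hfdef
  have hh1 : f ≤ hh p := by unfold hh; omega
  have hh2 : 2 * f ≤ hh p := by unfold hh; omega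
  have a1 : p - 1 - f = 5 * f := by omega
  have a2 : p - 1 - 2 * f = 4 * f := by omega
  have b1 := h2 p hp3 f hf1 hh1
  have b2 := h2 p hp3 (2 * f) (by omega) hh2
  have c1 := h3 p hp3 f hf1 hh1
  have c2 := h3 p hp3 (2 * f) (by omega) hh2
  rw [c1, a1, h7 p hp3 hp6] at b1
  rw [c2, a2, h8 p hp3 hp6] at b2
  have hJF := h5 p hp3 hp6
  rw [← hfdef] at hJF
  have hq : qc p (-1) ^ 2 = 1 := by
    unfold qc
    rw [← Int.cast_pow, quadraticChar_sq_one (neg_ne_zero.2 one_ne_zero)]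
    simp
  have hL := lp_mul_lp (p := p) (((4 * f : ℕ) : ZMod p) * Q2 p) (((4 * f : ℕ) : ZMod p) * Q2 p)
  have hom : om p 4 = (4 : ZMod (p ^ 2)) ^ p := by
    have := (h1 p hp3).2.2.2.2.1 4
    push_cast at this
    exact this
  have hw : (om p 4 ^ f) ^ 2 = 16 ^ f * (1 + lp p (((4 * f : ℕ) : ZMod p) * Q2 p)) := by
    rw [← TJ_pow, ← TJ_two hp3, hom]
    have e4 : (4 : ZMod (p ^ 2)) = 2 ^ 2 := by norm_num
    have e16 : (16 : ZMod (p ^ 2)) = 2 ^ 4 := by norm_num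
    rw [e4, e16, ← pow_mul, ← pow_mul, ← pow_mul, ← pow_mul, ← pow_mul, ← pow_add]
    congr 1
    obtain ⟨m, hm⟩ : ∃ m, p = m + 1 := ⟨p - 1, by omega⟩
    rw [hm]
    simp only [Nat.add_sub_cancel]
    ring
  refine TJ_alg ((-1) ^ f) (om p 4 ^ f) (qc p (-1))
    (∑ t ∈ univ.erase (0 : ZMod p), om p t ^ (4 * f) * qc p (1 - t))
    (((2 * f).choose f : ℕ) : ZMod (p ^ 2)) (((4 * f).choose (2 * f) : ℕ) : ZMod (p ^ 2))
    (lp p (((4 * f : ℕ) : ZMod p) * Q2 p)) (16 ^ f) (256 ^ f)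
    (∑ t ∈ univ.erase (0 : ZMod p), om p t ^ (5 * f) * qc p (1 - t)) ?_ hq hL ?_ hJF ?_ hw ?_
  · rw [← mul_pow]
    norm_num
  · have e : 2 * (f : ZMod p) * (2 * Q2 p) = ((4 * f : ℕ) : ZMod p) * Q2 p := by
      push_cast
      ring
    rw [e] at b1
    exact b1
  · have e : 2 * (2 * f) = 4 * f := by ring
    have e' : ((-1 : ZMod (p ^ 2))) ^ (2 * f) = 1 := by rw [pow_mul]; norm_num
    rw [mul_zero, lp_zero, e, e', one_mul, one_mul, add_zero, mul_one] at b2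
    have e2 : (om p 4 ^ f) ^ 2 = om p 4 ^ (2 * f) := by rw [← pow_mul, mul_comm]
    rw [e2]
    exact b2
  · rw [← pow_mul, mul_comm f 2, pow_mul]
    norm_num

end Pool.Agent.helper60.DA
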